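import Pool.Agent.J6H36.PF.Stm

/-!
# Module FAM of helper36 (project PF, MP_e2821c_ag)

In a family which contains all finite fields of characteristic `p` every finite field of
characteristic `p` embeds into infinitely many members.
-/

set_option autoImplicit false

universe u

namespace Pool.Agent.J6H76.PF

theorem t_FAM : Pool.Agent.J6H36.PF.S_FAM.{u} := by
  intro p _ ι F _ hF E _ _ _ J
  -- the extension of degree `k + 1`
  have hex : ∀ k : ℕ, ∃ j, Nonempty (F j ≃+* ULift.{u} (FiniteField.Extension E p (k + 1))) := by
    intro k
    have hchar : CharP (FiniteField.Extension E p (k + 1)) p :=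
      charP_of_injective_algebraMap (algebraMap E (FiniteField.Extension E p (k + 1))).injective p
    have : CharP (ULift.{u} (FiniteField.Extension E p (k + 1))) p :=
      charP_of_injective_ringHom
        (f := (ULift.ringEquiv (R := FiniteField.Extension E p (k + 1))).symm.toRingHom)
        (ULift.ringEquiv (R := FiniteField.Extension E p (k + 1))).symm.injective p
    exact hF (ULift.{u} (FiniteField.Extension E p (k + 1)))
  choose j hj using hex
  have hcard : ∀ k, Nat.card (F (j k)) = Nat.card E ^ (k + 1) := by
    intro k
    obtain ⟨e⟩ := hj k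
    rw [Nat.card_congr e.toEquiv, Nat.card_congr Equiv.ulift, FiniteField.natCard_extension]
  have hinj : Function.Injective j := by
    intro k l h
    have h1 : Nat.card E ^ (k + 1) = Nat.card E ^ (l + 1) := by
      rw [← hcard, ← hcard, h]
    have h2 := Nat.pow_right_injective (Finite.one_lt_card : 2 ≤ Nat.card E) h1
    omega
  obtain ⟨_, ⟨k, rfl⟩, hk⟩ := (Set.infinite_range_of_injective hinj).exists_notMem_finset J
  obtain ⟨e⟩ := hj k
  exact ⟨j k, hk, ⟨(e.symm : _ →+* F (j k)).comp
    ((ULift.ringEquiv (R := FiniteField.Extension E p (k + 1))).symm.toRingHom.comp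
      (algebraMap E (FiniteField.Extension E p (k + 1))))⟩⟩

end Pool.Agent.J6H76.PF
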